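import Pool.Agent.Q41.ND.Proj

/-!
# Rational curves on the projected Veronese surface
-/

namespace Pool.Agent.Q41.ND

open MvPolynomial

variable {k : Type*} [Field k]

/-- parametrization `(r : s) ↦ (r s^(t-1) : s^t : r^t)` of the plane curve `u^t = v^(t-1) w` -/
noncomputable def g (k : Type*) [Field k] (t : ℕ) : Fin 3 → MvPolynomial (Fin 2) k :=
  ![X 0 * X 1 ^ (t - 1), X 1 ^ t, X 0 ^ t]

theorem g_hom (t : ℕ) (ht : 0 < t) (i : Fin 3) : (g k t i).IsHomogeneous t := by
  fin_cases i
  · have := (isHomogeneous_X k (0 : Fin 2)).mul ((isHomogeneous_X k (1 : Fin 2)).pow (t - 1))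
    rw [one_mul, show 1 + (t - 1) = t by omega] at this
    exact this
  · have := (isHomogeneous_X k (1 : Fin 2)).pow t
    rwa [one_mul] at this
  · have := (isHomogeneous_X k (0 : Fin 2)).pow t
    rwa [one_mul] at this

/-- the index set of the monomials -/
def T (t d : ℕ) : Finset (ℕ × ℕ) :=
  ((Finset.range t) ×ˢ (Finset.range (d + 1))).filter fun x => x.1 + x.2 ≤ d

theorem mem_T (t d : ℕ) (x : ℕ × ℕ) : x ∈ T t d ↔ x.1 < t ∧ x.1 + x.2 ≤ d := by
  simp only [T, Finset.mem_filter, Finset.mem_product, Finset.mem_range]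
  omega

/-- the exponent -/
noncomputable def ex (t d : ℕ) (x : ℕ × ℕ) : Fin 2 →₀ ℕ :=
  Finsupp.single 0 (x.1 + t * x.2) + Finsupp.single 1 (t * d - (x.1 + t * x.2))

theorem ex_inj (t d : ℕ) {x y : ℕ × ℕ} (hx : x ∈ T t d) (hy : y ∈ T t d)
    (h : ex t d x = ex t d y) : x = y := by
  rw [mem_T] at hx hy
  have h1 := DFunLike.congr_fun h 0
  simp only [ex, Finsupp.add_apply, Finsupp.single_apply, if_true] at h1
  norm_num at h1
  have h2 : x.1 = y.1 := by
    have := congrArg (· % t) h1
    simp only [Nat.add_mul_mod_self_left] at this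
    rwa [Nat.mod_eq_of_lt hx.1, Nat.mod_eq_of_lt hy.1] at this
  have h3 : x.2 = y.2 := by
    rw [h2] at h1
    have h4 : t * x.2 = t * y.2 := by omega
    exact Nat.eq_of_mul_eq_mul_left (by omega) h4
  exact Prod.ext h2 h3

/-- the image of the forms of degree `d` in three variables -/
noncomputable def B (k : Type*) [Field k] (t d : ℕ) : Submodule k (MvPolynomial (Fin 2) k) :=
  (homogeneousSubmodule (Fin 3) k d).map (aeval (g k t)).toLinearMap

theorem aeval_mono (t d a b c : ℕ) (ht : 0 < t) (h : a + b + c = d) :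
    aeval (g k t) (X 0 ^ a * X 1 ^ b * X 2 ^ c : MvPolynomial (Fin 3) k) =
      X 0 ^ (a + t * c) * X 1 ^ (t * d - (a + t * c)) := by
  rw [map_mul, map_mul, map_pow, map_pow, map_pow, aeval_X, aeval_X, aeval_X]
  have h0 : g k t 0 = X 0 * X 1 ^ (t - 1) := rfl
  have h1 : g k t 1 = X 1 ^ t := rfl
  have h2 : g k t 2 = X 0 ^ t := rfl
  rw [h0, h1, h2]
  have h3 : t * d - (a + t * c) = (t - 1) * a + t * b := by
    obtain ⟨s, rfl⟩ : ∃ s, t = s + 1 := ⟨t - 1, by omega⟩
    rw [Nat.add_sub_cancel, ← h]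
    have : (s + 1) * (a + b + c) = (a + (s + 1) * c) + (s * a + (s + 1) * b) := by ring
    rw [this, Nat.add_sub_cancel_left]
  rw [h3, mul_pow, ← pow_mul, ← pow_mul, ← pow_mul, pow_add, pow_add]
  ring

theorem mono_eq (t d : ℕ) (x : ℕ × ℕ) :
    (monomial (ex t d x) 1 : MvPolynomial (Fin 2) k) =
      X 0 ^ (x.1 + t * x.2) * X 1 ^ (t * d - (x.1 + t * x.2)) := by
  rw [ex, monomial_eq, C_1, one_mul, Finsupp.prod_fintype _ _ (fun _ => pow_zero _),
    Fin.prod_univ_two]
  simp

theorem B_eq_span (t d : ℕ) (ht : 0 < t) : B k t d =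
    Submodule.span k (Set.range fun x : T t d =>
      (monomial (ex t d x.1) 1 : MvPolynomial (Fin 2) k)) := by
  apply le_antisymm
  · rintro _ ⟨p, hp, rfl⟩
    change aeval (g k t) p ∈ _
    rw [← support_sum_monomial_coeff p, map_sum]
    refine Submodule.sum_mem _ fun e he => ?_
    have h1 : e.degree = d := by
      by_contra h
      exact (mem_support_iff.mp he) ((show p.IsHomogeneous d from hp).coeff_eq_zero h)
    rw [Finsupp.degree_eq_sum, Fin.sum_univ_three] at h1
    have h2 : monomial e (coeff e p) = coeff e p • (X 0 ^ e 0 * X 1 ^ e 1 * X 2 ^ e 2 :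
        MvPolynomial (Fin 3) k) := by
      rw [monomial_eq, smul_eq_C_mul]
      congr 1
      rw [Finsupp.prod_fintype _ _ (fun _ => pow_zero _), Fin.prod_univ_three]
    rw [h2, map_smul]
    refine Submodule.smul_mem _ _ ?_
    rw [aeval_mono t d _ _ _ ht h1]
    -- the normal form
    have h3 : e 0 % t + t * (e 0 / t + e 2) = e 0 + t * e 2 := by
      have := Nat.mod_add_div (e 0) t
      rw [mul_add]
      omega
    have h4 : (e 0 % t, e 0 / t + e 2) ∈ T t d := by
      rw [mem_T]
      refine ⟨Nat.mod_lt _ ht, ?_⟩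
      have h5 := Nat.mod_add_div (e 0) t
      have h6 : e 0 / t ≤ t * (e 0 / t) := Nat.le_mul_of_pos_left _ ht
      simp only
      omega
    refine Submodule.subset_span ⟨⟨_, h4⟩, ?_⟩
    simp only
    rw [mono_eq]
    simp only [h3]
  · rw [Submodule.span_le]
    rintro _ ⟨⟨x, hx⟩, rfl⟩
    rw [mem_T] at hx
    refine ⟨X 0 ^ x.1 * X 1 ^ (d - x.1 - x.2) * X 2 ^ x.2, ?_, ?_⟩
    · have h1 := (((isHomogeneous_X k (0 : Fin 3)).pow x.1).mul
        ((isHomogeneous_X k (1 : Fin 3)).pow (d - x.1 - x.2))).mul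
        ((isHomogeneous_X k (2 : Fin 3)).pow x.2)
      have h2 : 1 * x.1 + 1 * (d - x.1 - x.2) + 1 * x.2 = d := by omega
      rw [h2] at h1
      exact h1
    · change aeval (g k t) _ = _
      rw [aeval_mono t d _ _ _ ht (by omega)]
      simp only
      rw [mono_eq]

theorem finrank_B (t d : ℕ) (ht : 0 < t) : Module.finrank k (B k t d) = (T t d).card := by
  rw [B_eq_span t d ht, finrank_span_eq_card]
  · rw [Fintype.card_coe]
  · have h1 : LinearIndependent k (basisMonomials (Fin 2) k) :=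
      (basisMonomials (Fin 2) k).linearIndependent
    have h2 : (fun x : T t d => (monomial (ex t d x.1) 1 : MvPolynomial (Fin 2) k)) =
        (basisMonomials (Fin 2) k) ∘ (fun x : T t d => ex t d x.1) := by
      funext x
      simp
    rw [h2]
    refine h1.comp _ ?_
    rintro ⟨x, hx⟩ ⟨y, hy⟩ h
    exact Subtype.ext (ex_inj t d hx hy h)

theorem card_T (t d : ℕ) (h : t ≤ d + 1) : (T t d).card = ∑ a ∈ Finset.range t, (d + 1 - a) := by
  have h1 : T t d = ((Finset.range t).sigma (fun a => Finset.range (d + 1 - a))).map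
      (⟨fun x => (x.1, x.2), fun x y h => by
        obtain ⟨a, b⟩ := x
        obtain ⟨c, e⟩ := y
        simp only [Prod.mk.injEq] at h
        obtain ⟨rfl, rfl⟩ := h
        rfl⟩ : (Σ _ : ℕ, ℕ) ↪ ℕ × ℕ) := by
    ext x
    rw [mem_T, Finset.mem_map]
    constructor
    · intro hx
      refine ⟨⟨x.1, x.2⟩, ?_, rfl⟩
      rw [Finset.mem_sigma, Finset.mem_range, Finset.mem_range]
      constructor
      · exact hx.1
      · simp only
        omega
    · rintro ⟨⟨a, b⟩, hab, rfl⟩
      rw [Finset.mem_sigma, Finset.mem_range, Finset.mem_range] at hab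
      change a < t ∧ a + b ≤ d
      simp only at hab
      omega
  rw [h1, Finset.card_map, Finset.card_sigma]
  simp only [Finset.card_range]

theorem card_T_poly (t d : ℕ) (h : t ≤ d + 1) :
    ((T t d).card : ℚ) = t * (d + 1) - t * (t - 1) / 2 := by
  rw [card_T t d h]
  induction t with
  | zero => simp
  | succ t ih =>
    rw [Finset.sum_range_succ, Nat.cast_add, ih (by omega), Nat.cast_sub (by omega)]
    push_cast
    ring

theorem card_T_four (t : ℕ) (ht : 5 ≤ t) : (T t 4).card = 15 := by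
  have h1 : T t 4 = T 5 4 := by
    ext x
    rw [mem_T, mem_T]
    omega
  rw [h1]
  decide

end Pool.Agent.Q41.ND
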