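import Mathlib

/-!
# Projective varieties given by their ideals and the condition ND(l)
-/

namespace Pool.Agent.Q41.ND

open MvPolynomial

variable {k : Type*} [Field k]

/-- the Hilbert function of `k[x_0, ..., x_N] / I` -/
noncomputable def hilb {N : ℕ} (I : Ideal (MvPolynomial (Fin (N + 1)) k)) (m : ℕ) : ℕ :=
  Module.finrank k ((homogeneousSubmodule (Fin (N + 1)) k m).map
    (Ideal.Quotient.mkₐ k I).toLinearMap)

/-- `I` is the homogeneous ideal of an integral closed subscheme of `ℙ^N` of dimension `n` and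
degree `D` (both are read off from the Hilbert polynomial `P`) -/
structure IsVariety {N : ℕ} (I : Ideal (MvPolynomial (Fin (N + 1)) k)) (n D : ℕ) : Prop where
  prime : I.IsPrime
  homogeneous : ∀ p ∈ I, ∀ m, homogeneousComponent m p ∈ I
  hilbert : ∃ P : Polynomial ℚ, P.natDegree = n ∧ P.leadingCoeff * (n.factorial : ℚ) = D ∧
    ∃ m₀ : ℕ, ∀ m ≥ m₀, (hilb I m : ℚ) = P.eval (m : ℚ)

/-- the ideal of the linear subspace defined by the linear forms with the coefficients `a` -/
noncomputable def lin {N c : ℕ} (a : Fin c × Fin (N + 1) → k) :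
    Ideal (MvPolynomial (Fin (N + 1)) k) :=
  Ideal.span (Set.range fun i : Fin c => ∑ j, C (a (i, j)) * X j)

/-- no form of degree `l` on the linear space `Λ` with the ideal `L` vanishes on `X ∩ Λ`, where
`X` has the ideal `I`: a form `Q` of degree `l` which lies in the saturation of `I + L` lies
in `L`. -/
def NoForm {N : ℕ} (I L : Ideal (MvPolynomial (Fin (N + 1)) k)) (l : ℕ) : Prop :=
  ∀ Q : MvPolynomial (Fin (N + 1)) k, Q.IsHomogeneous l →
    (∃ M : ℕ, ∀ G : MvPolynomial (Fin (N + 1)) k, G.IsHomogeneous M → G * Q ∈ I ⊔ L) → Q ∈ L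

/-- the condition ND(l) for a subscheme of codimension `e`: for a general linear subspace `Λ` of
every dimension `N - c ≥ e`, no form of degree `l` on `Λ` vanishes on `X ∩ Λ` -/
def CondND {N : ℕ} (I : Ideal (MvPolynomial (Fin (N + 1)) k)) (e l : ℕ) : Prop :=
  ∀ c : ℕ, c + e ≤ N → ∃ F : MvPolynomial (Fin c × Fin (N + 1)) k, F ≠ 0 ∧
    ∀ a : Fin c × Fin (N + 1) → k, eval a F ≠ 0 → NoForm I (lin a) l

end Pool.Agent.Q41.ND
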