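import Pool.Agent.Q41.ND.Curve

/-!
# Curves of large degree which fail ND(2)
-/

namespace Pool.Agent.Q41.ND

open MvPolynomial

variable {k : Type*} [Field k]

/-- dimension of the homogeneous pieces of a polynomial ring in `n + 1` variables -/
theorem finrank_homog (n d : ℕ) :
    Module.finrank k (homogeneousSubmodule (Fin (n + 1)) k d) = (n + d).choose d := by
  rw [homogeneousSubmodule_eq_finsupp_supported]
  have h1 : ({e | e.degree = d} : Set (Fin (n + 1) →₀ ℕ)) =
      ((Finset.univ.finsuppAntidiag d : Finset (Fin (n + 1) →₀ ℕ)) :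
        Set (Fin (n + 1) →₀ ℕ)) := by
    ext e
    simp [Finsupp.degree_eq_sum]
  rw [h1, (AddMonoidAlgebra.supportedEquivFinsupp _).finrank_eq]
  have h2 := Finset.card_finsuppAntidiag_nat_eq_choose (s := (Finset.univ : Finset (Fin (n + 1)))) d
  have h3 : Module.finrank k (↑((Finset.univ.finsuppAntidiag d : Finset (Fin (n + 1) →₀ ℕ)) :
      Set (Fin (n + 1) →₀ ℕ)) →₀ k) =
        (Finset.univ.finsuppAntidiag d : Finset (Fin (n + 1) →₀ ℕ)).card := by
    rw [Module.finrank_finsupp_self]
    simp
  rw [h3, h2]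
  simp only [Finset.card_univ, Fintype.card_fin]
  congr 1
  omega

instance (n d : ℕ) : Module.Finite k (homogeneousSubmodule (Fin n) k d) :=
  Module.Finite.iff_fg.2 (homogeneousSubmodule_fg (Fin n) k d)

/-- the parametrization of the curve in `ℙ⁴` -/
noncomputable def par (k : Type*) [Field k] (t : ℕ) : Fin 5 → MvPolynomial (Fin 2) k :=
  fun i => aeval (g k t) (q k i)

theorem par_hom (t : ℕ) (ht : 0 < t) (i : Fin 5) : (par k t i).IsHomogeneous (t * 2) :=
  (q_hom i).aeval (g k t) (g_hom t ht)

theorem aeval_par (t : ℕ) (p : MvPolynomial (Fin 5) k) :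
    aeval (par k t) p = aeval (g k t) (aeval (q k) p) := by
  have : (aeval (par k t) : MvPolynomial (Fin 5) k →ₐ[k] MvPolynomial (Fin 2) k) =
      (aeval (g k t)).comp (aeval (q k)) := by
    apply MvPolynomial.algHom_ext
    intro i
    simp [par]
  rw [this]
  rfl

/-- the ideal of the curve -/
noncomputable def I (k : Type*) [Field k] (t : ℕ) : Ideal (MvPolynomial (Fin 5) k) :=
  RingHom.ker (aeval (par k t) : MvPolynomial (Fin 5) k →ₐ[k] MvPolynomial (Fin 2) k)

theorem mem_I (t : ℕ) (p : MvPolynomial (Fin 5) k) : p ∈ I k t ↔ aeval (par k t) p = 0 :=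
  RingHom.mem_ker

theorem map_par (t m : ℕ) (hm : 2 ≤ m) :
    (homogeneousSubmodule (Fin 5) k m).map (aeval (par k t)).toLinearMap = B k t (2 * m) := by
  have h1 : (aeval (par k t) : MvPolynomial (Fin 5) k →ₐ[k] MvPolynomial (Fin 2) k).toLinearMap =
      (aeval (g k t)).toLinearMap ∘ₗ (aeval (q k)).toLinearMap :=
    LinearMap.ext fun p => aeval_par t p
  rw [h1, Submodule.map_comp]
  unfold B
  rw [← A_eq m hm]
  rfl

theorem hilb_I (t m : ℕ) (ht : 0 < t) (hm : 2 ≤ m) : hilb (I k t) m = (T t (2 * m)).card := by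
  rw [← finrank_B (k := k) t (2 * m) ht, ← map_par t m hm]
  unfold hilb
  let φ := (aeval (par k t) : MvPolynomial (Fin 5) k →ₐ[k] MvPolynomial (Fin 2) k)
  have h1 : φ.toLinearMap = (Ideal.Quotient.liftₐ (I k t) φ (fun a ha => ha)).toLinearMap ∘ₗ
      (Ideal.Quotient.mkₐ k (I k t)).toLinearMap := by
    ext1 p
    rfl
  change _ = Module.finrank k ((homogeneousSubmodule (Fin 5) k m).map φ.toLinearMap)
  rw [h1, Submodule.map_comp]
  have h2 : Function.Injective (Ideal.Quotient.liftₐ (I k t) φ (fun a ha => ha)).toLinearMap :=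
    RingHom.kerLift_injective φ.toRingHom
  exact (LinearEquiv.finrank_eq (Submodule.equivMapOfInjective _ h2 _))

/-- no quadric contains the curve -/
theorem no_quadric (t : ℕ) (ht : 5 ≤ t) (Q : MvPolynomial (Fin 5) k) (hQ : Q.IsHomogeneous 2)
    (h : Q ∈ I k t) : Q = 0 := by
  let φ : homogeneousSubmodule (Fin 5) k 2 →ₗ[k] MvPolynomial (Fin 2) k :=
    (aeval (par k t)).toLinearMap ∘ₗ (homogeneousSubmodule (Fin 5) k 2).subtype
  have h1 : LinearMap.range φ = B k t 4 := by
    rw [LinearMap.range_comp, Submodule.range_subtype]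
    exact map_par t 2 le_rfl
  have h2 := LinearMap.finrank_range_add_finrank_ker φ
  rw [h1, finrank_B t 4 (by omega), card_T_four t ht, finrank_homog 4 2] at h2
  have h3 : Module.finrank k (LinearMap.ker φ) = 0 := by
    have : (4 + 2).choose 2 = 15 := by decide
    omega
  have h4 : LinearMap.ker φ = ⊥ := Submodule.finrank_eq_zero.mp h3
  have h5 : (⟨Q, hQ⟩ : homogeneousSubmodule (Fin 5) k 2) ∈ LinearMap.ker φ := h
  rw [h4, Submodule.mem_bot] at h5
  exact congrArg Subtype.val h5

theorem isVariety (t : ℕ) (ht : 5 ≤ t) : IsVariety (N := 4) (I k t) 1 (2 * t) := by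
  refine ⟨RingHom.ker_isPrime _, ?_, ?_⟩
  · intro p hp m
    rw [mem_I] at hp ⊢
    rw [← comp_aeval (D := t * 2) (by omega) (par k t) (par_hom t (by omega)), hp, map_zero]
  · refine ⟨Polynomial.C (2 * t : ℚ) * Polynomial.X +
      Polynomial.C (t - t * (t - 1) / 2 : ℚ), ?_, ?_, t, ?_⟩
    · apply Polynomial.natDegree_linear
      positivity
    · rw [Polynomial.leadingCoeff_linear (by positivity)]
      simp
    · intro m hm
      have := hilb_I (k := k) t m (by omega) (by omega)
      change (hilb (I k t) m : ℚ) = _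
      rw [this, card_T_poly t (2 * m) (by omega)]
      simp
      ring

/-- every hyperplane section lies on a quadric -/
theorem section_quadric (t : ℕ) (L : MvPolynomial (Fin 5) k) (hL : L.IsHomogeneous 1)
    (hL0 : L ≠ 0) : ¬ NoForm (N := 4) (I k t) (Ideal.span {L}) 2 := by
  intro hno
  -- the conic which is not in the linear system
  let s : MvPolynomial (Fin 3) k := X 1 * X 1
  have hs : s.IsHomogeneous 2 := (isHomogeneous_X k _).mul (isHomogeneous_X k _)
  have hφL : (aeval (q k) L).IsHomogeneous 2 := hL.aeval (q k) q_hom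
  have h1 : aeval (q k) L * s ∈ A k 2 := by
    rw [A_eq 2 le_rfl]
    exact hφL.mul hs
  obtain ⟨Q, hQ, hQs⟩ := h1
  have hQs' : aeval (q k) Q = aeval (q k) L * s := hQs
  have h2 := hno Q hQ ⟨1, fun G hG => by
    have h3 : aeval (q k) G * s ∈ A k 2 := by
      rw [A_eq 2 le_rfl]
      exact (hG.aeval (q k) q_hom).mul hs
    obtain ⟨P, hP, hPs⟩ := h3
    have hPs' : aeval (q k) P = aeval (q k) G * s := hPs
    have h4 : G * Q = (G * Q - P * L) + P * L := by ring
    rw [h4]
    refine Ideal.add_mem _ (Ideal.mem_sup_left ?_) (Ideal.mem_sup_right ?_)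
    · rw [mem_I, aeval_par, map_sub, map_mul, map_mul, hQs', hPs']
      rw [show aeval (q k) G * (aeval (q k) L * s) - aeval (q k) G * s * aeval (q k) L = 0 by ring,
        map_zero]
    · exact Ideal.mul_mem_left _ _ (Ideal.mem_span_singleton_self L)⟩
  obtain ⟨H, hH⟩ := Ideal.mem_span_singleton'.mp h2
  -- cancel `L`
  have hinj : aeval (q k) L ≠ 0 := by
    intro h0
    have h5 : L * L ∈ I k 5 := by
      rw [mem_I, aeval_par, map_mul, h0, mul_zero, map_zero]
    have h6 := no_quadric 5 le_rfl (L * L) (hL.mul hL) h5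
    exact hL0 (mul_self_eq_zero.mp h6)
  have h7 : aeval (q k) H = s := by
    have h8 : aeval (q k) H * aeval (q k) L = s * aeval (q k) L := by
      rw [← map_mul, hH, hQs', mul_comm]
    exact mul_right_cancel₀ hinj h8
  have h9 : aeval (q k) (homogeneousComponent 1 H) = s := by
    rw [← comp_aeval two_ne_zero (q k) q_hom, h7]
    exact homogeneousComponent_of_mem hs |>.trans (if_pos rfl)
  -- compare two coefficients
  have h10 : homogeneousComponent 1 H ∈ homogeneousSubmodule (Fin 5) k 1 :=
    homogeneousComponent_isHomogeneous 1 H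
  rw [homogeneousSubmodule_one_eq_span_X] at h10
  have key : ∀ p ∈ Submodule.span k (Set.range (X : Fin 5 → MvPolynomial (Fin 5) k)),
      coeff (Finsupp.single 1 2) (aeval (q k) p) =
        coeff (Finsupp.single 0 1 + Finsupp.single 2 1) (aeval (q k) p) := by
    intro p hp
    induction hp using Submodule.span_induction with
    | mem x hx =>
      obtain ⟨i, rfl⟩ := hx
      rw [aeval_X]
      have hXX : ∀ i j : Fin 3, (X i * X j : MvPolynomial (Fin 3) k) =
          monomial (Finsupp.single i 1 + Finsupp.single j 1) 1 := by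
        intro i j
        rw [X, X, monomial_mul, one_mul]
      have hne : ∀ d e : Fin 3 →₀ ℕ, (∃ i, d i ≠ e i) → d ≠ e := by
        rintro d e ⟨i, hi⟩ rfl
        exact hi rfl
      fin_cases i
      · change coeff _ (X 0 * X 0 : MvPolynomial (Fin 3) k) = coeff _ (X 0 * X 0)
        rw [hXX, coeff_monomial, coeff_monomial, if_neg (hne _ _ ⟨0, by simp⟩),
          if_neg (hne _ _ ⟨0, by simp⟩)]
      · change coeff _ (X 0 * X 1 : MvPolynomial (Fin 3) k) = coeff _ (X 0 * X 1)
        rw [hXX, coeff_monomial, coeff_monomial, if_neg (hne _ _ ⟨0, by simp⟩),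
          if_neg (hne _ _ ⟨1, by simp⟩)]
      · change coeff _ (X 0 * X 2 + X 1 * X 1 : MvPolynomial (Fin 3) k) =
          coeff _ (X 0 * X 2 + X 1 * X 1)
        rw [hXX, hXX, coeff_add, coeff_add, coeff_monomial, coeff_monomial, coeff_monomial,
          coeff_monomial, if_neg (hne _ _ ⟨0, by simp⟩), if_pos, if_pos rfl,
          if_neg (hne _ _ ⟨1, by simp⟩), zero_add, add_zero]
        rw [← Finsupp.single_add]
      · change coeff _ (X 1 * X 2 : MvPolynomial (Fin 3) k) = coeff _ (X 1 * X 2)
        rw [hXX, coeff_monomial, coeff_monomial, if_neg (hne _ _ ⟨2, by simp⟩),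
          if_neg (hne _ _ ⟨1, by simp⟩)]
      · change coeff _ (X 2 * X 2 : MvPolynomial (Fin 3) k) = coeff _ (X 2 * X 2)
        rw [hXX, coeff_monomial, coeff_monomial, if_neg (hne _ _ ⟨2, by simp⟩),
          if_neg (hne _ _ ⟨0, by simp⟩)]
    | zero => simp
    | add x y _ _ hx hy => rw [map_add, coeff_add, coeff_add, hx, hy]
    | smul a x _ hx => rw [map_smul, coeff_smul, coeff_smul, hx]
  have h11 := key _ h10
  rw [h9] at h11
  have hs1 : s = monomial (Finsupp.single 1 2) 1 := by
    simp only [s]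
    rw [X, monomial_mul, one_mul, ← Finsupp.single_add]
  rw [hs1, coeff_monomial, coeff_monomial, if_pos rfl, if_neg] at h11
  · exact one_ne_zero h11
  · intro h12
    have := DFunLike.congr_fun h12 0
    simp at this

theorem not_ND [Infinite k] (t : ℕ) : ¬ CondND (N := 4) (I k t) 3 2 := by
  intro hND
  obtain ⟨F, hF, h⟩ := hND 1 (by norm_num)
  have h1 : F * X (0, 0) ≠ 0 := mul_ne_zero hF (X_ne_zero _)
  obtain ⟨a, ha⟩ : ∃ a : Fin 1 × Fin (4 + 1) → k, eval a (F * X (0, 0)) ≠ 0 := by
    by_contra hcon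
    push Not at hcon
    exact h1 (MvPolynomial.funext fun a => by rw [hcon a, map_zero])
  rw [map_mul, eval_X] at ha
  have h2 := h a (left_ne_zero_of_mul ha)
  let L : MvPolynomial (Fin 5) k := ∑ j, C (a (0, j)) * X j
  have h3 : lin (N := 4) a = Ideal.span {L} := by
    unfold lin
    congr 1
    ext x
    constructor
    · rintro ⟨i, rfl⟩
      rw [Set.mem_singleton_iff, Subsingleton.elim i 0]
    · rintro rfl
      exact ⟨0, rfl⟩
  have h4 : L.IsHomogeneous 1 := by
    refine IsHomogeneous.sum _ _ _ fun j _ => ?_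
    have := (isHomogeneous_C (Fin 5) (a (0, j))).mul (isHomogeneous_X k j)
    rwa [zero_add] at this
  have h5 : L ≠ 0 := by
    intro h0
    have h6 : coeff (Finsupp.single 0 1) L = a (0, 0) := by
      simp only [L]
      rw [coeff_sum, Finset.sum_eq_single 0]
      · rw [coeff_C_mul, coeff_X, if_pos rfl, mul_one]
      · intro j _ hj
        rw [coeff_C_mul, coeff_X, if_neg, mul_zero]
        intro h7
        exact hj (Finsupp.single_left_injective one_ne_zero h7)
      · intro h; exact absurd (Finset.mem_univ _) h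
    rw [h0, coeff_zero] at h6
    exact right_ne_zero_of_mul ha h6.symm
  rw [h3] at h2
  exact section_quadric t L h4 h5 h2

end Pool.Agent.Q41.ND
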