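import Pool.Agent.Q41.ND.Defs

/-!
# The projected Veronese surface
-/

namespace Pool.Agent.Q41.ND

open MvPolynomial

variable {k : Type*} [Field k]

/-- graded homomorphisms commute with the homogeneous components -/
theorem comp_aeval {σ τ : Type*} {D : ℕ} (hD : D ≠ 0) (q : σ → MvPolynomial τ k)
    (hq : ∀ i, (q i).IsHomogeneous D) (p : MvPolynomial σ k) (m : ℕ) :
    homogeneousComponent (D * m) (aeval q p) = aeval q (homogeneousComponent m p) := by
  have h1 : ∀ i, homogeneousComponent (D * m) (aeval q (homogeneousComponent i p)) =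
      if i = m then aeval q (homogeneousComponent m p) else 0 := by
    intro i
    have h2 : aeval q (homogeneousComponent i p) ∈ homogeneousSubmodule τ k (D * i) :=
      (homogeneousComponent_isHomogeneous i p).aeval q hq
    rw [homogeneousComponent_of_mem h2]
    by_cases h : i = m
    · rw [if_pos h, if_pos (by rw [h]), h]
    · rw [if_neg h, if_neg]
      intro h3
      exact h (Nat.eq_of_mul_eq_mul_left (Nat.pos_of_ne_zero hD) h3).symm
  conv_lhs => rw [← sum_homogeneousComponent p, map_sum, map_sum]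
  rw [Finset.sum_congr rfl fun i _ => h1 i, Finset.sum_ite_eq']
  split_ifs with h
  · rfl
  · rw [Finset.mem_range, not_lt] at h
    rw [homogeneousComponent_eq_zero _ _ (by omega), map_zero]

/-- the five conics which define the projection of the Veronese surface -/
noncomputable def q (k : Type*) [Field k] : Fin 5 → MvPolynomial (Fin 3) k :=
  ![X 0 * X 0, X 0 * X 1, X 0 * X 2 + X 1 * X 1, X 1 * X 2, X 2 * X 2]

theorem q_hom (i : Fin 5) : (q k i).IsHomogeneous 2 := by
  have h : ∀ i j : Fin 3, ((X i : MvPolynomial (Fin 3) k) * X j).IsHomogeneous 2 :=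
    fun i j => (isHomogeneous_X k i).mul (isHomogeneous_X k j)
  fin_cases i
  · exact h 0 0
  · exact h 0 1
  · exact (h 0 2).add (h 1 1)
  · exact h 1 2
  · exact h 2 2

/-- the image of the forms of degree `m` -/
noncomputable def A (k : Type*) [Field k] (m : ℕ) : Submodule k (MvPolynomial (Fin 3) k) :=
  (homogeneousSubmodule (Fin 5) k m).map (aeval (q k)).toLinearMap

theorem mem_A {m : ℕ} {p : MvPolynomial (Fin 3) k} :
    p ∈ A k m ↔ ∃ P : MvPolynomial (Fin 5) k, P.IsHomogeneous m ∧ aeval (q k) P = p := Iff.rfl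

theorem A_mul {m : ℕ} {p : MvPolynomial (Fin 3) k} (i : Fin 5) (hp : p ∈ A k m) :
    q k i * p ∈ A k (m + 1) := by
  obtain ⟨P, hP, rfl⟩ := hp
  refine ⟨X i * P, ?_, ?_⟩
  · have := (isHomogeneous_X k i).mul hP
    rw [add_comm] at this
    exact this
  · change aeval (q k) (X i * P) = _
    rw [map_mul, aeval_X]
    rfl

theorem q_mem (i : Fin 5) : q k i ∈ A k 1 := ⟨X i, isHomogeneous_X k i, aeval_X _ _⟩

theorem A_le (m : ℕ) : A k m ≤ homogeneousSubmodule (Fin 3) k (2 * m) := by
  rintro _ ⟨P, hP, rfl⟩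
  exact (show P.IsHomogeneous m from hP).aeval (q k) q_hom

theorem base (a b c : ℕ) (h : a + b + c = 4) :
    (X 0 ^ a * X 1 ^ b * X 2 ^ c : MvPolynomial (Fin 3) k) ∈ A k 2 := by
  have hm : ∀ i j : Fin 5, q k i * q k j ∈ A k 2 := fun i j => A_mul i (q_mem j)
  have e0 : q k 0 = X 0 * X 0 := rfl
  have e1 : q k 1 = X 0 * X 1 := rfl
  have e2 : q k 2 = X 0 * X 2 + X 1 * X 1 := rfl
  have e3 : q k 3 = X 1 * X 2 := rfl
  have e4 : q k 4 = X 2 * X 2 := rfl
  have ha : a ≤ 4 := by omega
  have hb : b ≤ 4 := by omega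
  obtain rfl : c = 4 - a - b := by omega
  interval_cases a <;> interval_cases b <;> first | (exfalso; omega) | skip
  · convert hm 4 4 using 1; rw [e4]; ring
  · convert hm 3 4 using 1; rw [e3, e4]; ring
  · convert hm 3 3 using 1; rw [e3]; ring
  · convert (A k 2).sub_mem (hm 2 3) (hm 1 4) using 1; rw [e1, e2, e3, e4]; ring
  · convert (A k 2).sub_mem ((A k 2).sub_mem (hm 2 2) (hm 0 4))
      ((A k 2).add_mem (hm 1 3) (hm 1 3)) using 1
    rw [e0, e1, e2, e3, e4]; ring
  · convert (A k 2).sub_mem (hm 2 4) (hm 3 3) using 1; rw [e2, e3, e4]; ring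
  · convert hm 1 4 using 1; rw [e1, e4]; ring
  · convert hm 1 3 using 1; rw [e1, e3]; ring
  · convert (A k 2).sub_mem (hm 1 2) (hm 0 3) using 1; rw [e0, e1, e2, e3]; ring
  · convert hm 0 4 using 1; rw [e0, e4]; ring
  · convert hm 0 3 using 1; rw [e0, e3]; ring
  · convert hm 1 1 using 1; rw [e1]; ring
  · convert (A k 2).sub_mem (hm 0 2) (hm 1 1) using 1; rw [e0, e1, e2]; ring
  · convert hm 0 1 using 1; rw [e0, e1]; ring
  · convert hm 0 0 using 1; rw [e0]; ring

theorem mono_mem (m : ℕ) (hm : 2 ≤ m) : ∀ a b c : ℕ, a + b + c = 2 * m →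
    (X 0 ^ a * X 1 ^ b * X 2 ^ c : MvPolynomial (Fin 3) k) ∈ A k m := by
  have e0 : q k 0 = X 0 * X 0 := rfl
  have e1 : q k 1 = X 0 * X 1 := rfl
  have e2 : q k 2 = X 0 * X 2 + X 1 * X 1 := rfl
  have e3 : q k 3 = X 1 * X 2 := rfl
  have e4 : q k 4 = X 2 * X 2 := rfl
  induction m, hm using Nat.le_induction with
  | base => intro a b c h; exact base a b c (by omega)
  | succ m hm ih =>
    intro a b c h
    by_cases ha : 2 ≤ a
    · have := A_mul 0 (ih (a - 2) b c (by omega))
      convert this using 1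
      obtain ⟨a', rfl⟩ : ∃ a', a = a' + 2 := ⟨a - 2, by omega⟩
      rw [e0, Nat.add_sub_cancel]; ring
    by_cases hc : 2 ≤ c
    · have := A_mul 4 (ih a b (c - 2) (by omega))
      convert this using 1
      obtain ⟨c', rfl⟩ : ∃ c', c = c' + 2 := ⟨c - 2, by omega⟩
      rw [e4, Nat.add_sub_cancel]; ring
    have hb : 2 ≤ b := by omega
    obtain ⟨b', rfl⟩ : ∃ b', b = b' + 2 := ⟨b - 2, by omega⟩
    by_cases ha1 : a = 1
    · have := A_mul 1 (ih 0 (b' + 1) c (by omega))
      convert this using 1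
      rw [e1, ha1]; ring
    by_cases hc1 : c = 1
    · have := A_mul 3 (ih a (b' + 1) 0 (by omega))
      convert this using 1
      rw [e3, hc1]; ring
    obtain rfl : a = 0 := by omega
    obtain rfl : c = 0 := by omega
    obtain ⟨b'', rfl⟩ : ∃ b'', b' = b'' + 1 := ⟨b' - 1, by omega⟩
    have h1 := A_mul 2 (ih 0 (b'' + 1) 0 (by omega))
    have h2 := A_mul 1 (ih 0 b'' 1 (by omega))
    convert (A k (m + 1)).sub_mem h1 h2 using 1
    rw [e1, e2]; ring

/-- the forms of even degree at least four lie in the image -/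
theorem A_eq (m : ℕ) (hm : 2 ≤ m) : A k m = homogeneousSubmodule (Fin 3) k (2 * m) := by
  apply le_antisymm (A_le m)
  intro p hp
  rw [← support_sum_monomial_coeff p]
  refine Submodule.sum_mem _ fun d hd => ?_
  have h1 : d.degree = 2 * m := by
    by_contra h
    exact (mem_support_iff.mp hd) ((show p.IsHomogeneous (2 * m) from hp).coeff_eq_zero h)
  have h2 : monomial d (coeff d p) = coeff d p • (X 0 ^ d 0 * X 1 ^ d 1 * X 2 ^ d 2 :
      MvPolynomial (Fin 3) k) := by
    rw [monomial_eq, smul_eq_C_mul]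
    congr 1
    rw [Finsupp.prod_fintype _ _ (fun _ => pow_zero _), Fin.prod_univ_three]
  rw [h2]
  refine Submodule.smul_mem _ _ (mono_mem m hm _ _ _ ?_)
  rw [← h1, Finsupp.degree_eq_sum, Fin.sum_univ_three]

end Pool.Agent.Q41.ND
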